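import Pool.Agent.Lib.MP_0c6837_al.Final

/-!
# Free groups have faithful minimal strongly proximal actions that are not topologically free

For every rank `n ≥ 5` there is a compact metrizable space `X` with an action of the free group of rank
`n` by homeomorphisms which is faithful, minimal and strongly proximal, but such that the set of points
with trivial stabilizer is not dense.
-/

set_option autoImplicit false

namespace Pool.Agent.Results.MP_0c6837_al.NotTopFree

open MeasureTheory Topology

theorem result : ∀ n : ℕ, 5 ≤ n →
    ∃ (X : Type) (_ : TopologicalSpace X) (_ : CompactSpace X) (_ : T2Space X)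
      (_ : TopologicalSpace.MetrizableSpace X) (_ : Nonempty X)
      (_ : MeasurableSpace X) (_ : BorelSpace X)
      (_ : MulAction (FreeGroup (Fin n)) X) (_ : ContinuousConstSMul (FreeGroup (Fin n)) X),
      -- faithful
      FaithfulSMul (FreeGroup (Fin n)) X ∧
      -- minimal
      (∀ x : X, Dense (MulAction.orbit (FreeGroup (Fin n)) x)) ∧
      -- strongly proximal
      (∀ μ : ProbabilityMeasure X, ∃ x : X, diracProba x ∈
        closure (Set.range fun g : FreeGroup (Fin n) =>
          μ.map (f := fun y : X => g • y) (continuous_const_smul g).measurable.aemeasurable)) ∧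
      -- not topologically free
      ¬ Dense {x : X | MulAction.stabilizer (FreeGroup (Fin n)) x = ⊥} := by
  intro n hn
  obtain ⟨k, rfl⟩ : ∃ k, n = k + 4 + 1 := ⟨n - 5, by omega⟩
  letI mX : MeasurableSpace (Lib.MP_0c6837_al.XX k) := borel _
  haveI bX : BorelSpace (Lib.MP_0c6837_al.XX k) := ⟨rfl⟩
  exact ⟨Lib.MP_0c6837_al.XX k, inferInstance, inferInstance, inferInstance, inferInstance,
    ⟨Lib.MP_0c6837_al.x0⟩, mX, bX, inferInstance, inferInstance,
    Lib.MP_0c6837_al.faithfulSMul, Lib.MP_0c6837_al.minimal.dense_orbit,
    fun μ => ⟨Lib.MP_0c6837_al.x0, Lib.MP_0c6837_al.proximal mX bX μ⟩,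
    Lib.MP_0c6837_al.not_dense⟩

end Pool.Agent.Results.MP_0c6837_al.NotTopFree
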